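import Mathlib

set_option autoImplicit false

open Complex InnerProductSpace Metric Set Topology

namespace Pool.Agent.TH908.Cat

/-- Schwarz lemma for harmonic functions `𝔻 → (-1,1)` vanishing at the centre. -/
theorem bound {h : ℂ → ℝ} (hh : HarmonicOnNhd h (ball (0 : ℂ) 1))
    (hb : ∀ z ∈ ball (0 : ℂ) 1, |h z| < 1) (h0 : h 0 = 0) :
    |fderiv ℝ h 0 I| ≤ 4 / Real.pi := by
  obtain ⟨F, hF, hre⟩ := hh.exists_analyticOnNhd_ball_re_eq
  have hpi := Real.pi_pos
  have m0 : (0 : ℂ) ∈ ball (0 : ℂ) 1 := mem_ball_self one_pos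
  have hFd : DifferentiableOn ℂ F (ball (0 : ℂ) 1) := hF.differentiableOn
  set e : ℂ → ℂ := fun z => cexp ((Real.pi / 2 : ℝ) * I * (F z - F 0)) with he
  set G : ℂ → ℂ := fun z => (e z - 1) / (e z + 1) with hG
  have hF0 : (F 0).re = 0 := by
    have := hre m0
    simp only at this
    rw [this, h0]
  have hepos : ∀ z ∈ ball (0 : ℂ) 1, 0 < (e z).re := by
    intro z hz
    have h1 : (F z).re = h z := hre hz
    have h2 := hb z hz
    rw [he]
    simp only
    rw [Complex.exp_re]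
    have him : ((Real.pi / 2 : ℝ) * I * (F z - F 0)).im = Real.pi / 2 * h z := by
      simp [Complex.mul_im, Complex.mul_re, h1, hF0]
    rw [him]
    apply mul_pos (Real.exp_pos _)
    rw [abs_lt] at h2
    apply Real.cos_pos_of_mem_Ioo
    constructor <;> nlinarith
  have hne : ∀ z ∈ ball (0 : ℂ) 1, e z + 1 ≠ 0 := by
    intro z hz h
    have := hepos z hz
    have h2 : (e z + 1).re = 0 := by rw [h]; simp
    simp at h2
    linarith
  have hed : DifferentiableOn ℂ e (ball (0 : ℂ) 1) := by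
    rw [he]
    exact ((hFd.sub_const _).const_mul _).cexp
  have hGd : DifferentiableOn ℂ G (ball (0 : ℂ) 1) := by
    rw [hG]
    exact (hed.sub_const _).div (hed.add_const _) hne
  have hGm : MapsTo G (ball (0 : ℂ) 1) (ball (G 0) 1) := by
    intro z hz
    have hG0 : G 0 = 0 := by simp [hG, he]
    rw [hG0, mem_ball_zero_iff]
    have hp := hepos z hz
    rw [hG]
    simp only
    rw [norm_div, div_lt_one (norm_pos_iff.2 (hne z hz))]
    rw [← sq_lt_sq₀ (norm_nonneg _) (norm_nonneg _), ← Complex.normSq_eq_norm_sq,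
      ← Complex.normSq_eq_norm_sq]
    simp only [Complex.normSq_apply, Complex.sub_re, Complex.add_re, Complex.sub_im,
      Complex.add_im, Complex.one_re, Complex.one_im]
    nlinarith
  have hS := Complex.norm_deriv_le_div_of_mapsTo_ball hGd (hGm.mono_right ball_subset_closedBall) one_pos
  have hF' : HasDerivAt F (deriv F 0) 0 :=
    (hFd.differentiableAt (isOpen_ball.mem_nhds m0)).hasDerivAt
  have he' : HasDerivAt e ((Real.pi / 2 : ℝ) * I * deriv F 0) 0 := by
    have := ((hF'.sub_const (F 0)).const_mul ((Real.pi / 2 : ℝ) * I : ℂ)).cexp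
    rw [he]
    simpa using this
  have he0 : e 0 = 1 := by simp [he]
  have hG' : HasDerivAt G ((Real.pi / 2 : ℝ) * I * deriv F 0 / 2) 0 := by
    have h1 := (he'.sub_const 1).div (he'.add_const 1) (hne 0 m0)
    have h2 : ((Real.pi / 2 : ℝ) * I * deriv F 0 * (e 0 + 1) -
        (e 0 - 1) * ((Real.pi / 2 : ℝ) * I * deriv F 0)) / (e 0 + 1) ^ 2 =
        (Real.pi / 2 : ℝ) * I * deriv F 0 / 2 := by
      rw [he0]
      ring
    rw [h2] at h1
    exact h1
  rw [hG'.deriv] at hS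
  have hn : ‖deriv F 0‖ ≤ 4 / Real.pi := by
    have : ‖(Real.pi / 2 : ℝ) * I * deriv F 0 / 2‖ = Real.pi / 4 * ‖deriv F 0‖ := by
      rw [norm_div, norm_mul, norm_mul, Complex.norm_I, Complex.norm_real, Real.norm_eq_abs,
        abs_of_pos (by positivity)]
      simp
      ring
    rw [this] at hS
    rw [le_div_iff₀ hpi]
    norm_num at hS
    linarith
  have hh' : HasFDerivAt h (reCLM.comp ((deriv F 0) • (1 : ℂ →L[ℝ] ℂ))) 0 := by
    have h1 : HasFDerivAt (fun z => (F z).re) (reCLM.comp ((deriv F 0) • (1 : ℂ →L[ℝ] ℂ))) 0 :=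
      reCLM.hasFDerivAt.comp (0 : ℂ) hF'.complexToReal_fderiv
    apply h1.congr_of_eventuallyEq
    filter_upwards [isOpen_ball.mem_nhds m0] with z hz
    exact (hre hz).symm
  rw [hh'.fderiv]
  have h3 : (reCLM.comp ((deriv F 0) • (1 : ℂ →L[ℝ] ℂ))) I = (deriv F 0 * I).re := by
    simp
  rw [h3]
  calc |(deriv F 0 * I).re| ≤ ‖deriv F 0 * I‖ := Complex.abs_re_le_norm _
    _ = ‖deriv F 0‖ := by simp
    _ ≤ _ := hn

/-- the real part of a holomorphic vector -/
noncomputable def vre (D : Fin 3 → ℂ) : EuclideanSpace ℝ (Fin 3) := WithLp.toLp 2 (fun k => (D k).re)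

/-- real derivative of the real part of a holomorphic vector -/
theorem hasFDerivAt_vre {Φ : Fin 3 → ℂ → ℂ} {D : Fin 3 → ℂ} {z : ℂ}
    (h : ∀ k, HasDerivAt (Φ k) (D k) z) :
    ∃ L : ℂ →L[ℝ] EuclideanSpace ℝ (Fin 3), HasFDerivAt (fun w => vre (fun k => Φ k w)) L z ∧
      ∀ w, L w = vre (fun k => D k * w) := by
  refine ⟨(EuclideanSpace.equiv (Fin 3) ℝ).symm.toContinuousLinearMap.comp
    (ContinuousLinearMap.pi (fun k => reCLM.comp ((D k) • (1 : ℂ →L[ℝ] ℂ)))), ?_, ?_⟩
  · apply (EuclideanSpace.equiv (Fin 3) ℝ).symm.toContinuousLinearMap.hasFDerivAt.comp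
    rw [hasFDerivAt_pi]
    intro k
    exact reCLM.hasFDerivAt.comp z (h k).complexToReal_fderiv
  · intro w
    ext k
    simp [vre]

theorem fderiv_vre {Φ : Fin 3 → ℂ → ℂ} {D : Fin 3 → ℂ} {z : ℂ}
    (h : ∀ k, HasDerivAt (Φ k) (D k) z) (w : ℂ) :
    fderiv ℝ (fun w => vre (fun k => Φ k w)) z w = vre (fun k => D k * w) := by
  obtain ⟨L, hL, hw⟩ := hasFDerivAt_vre h
  rw [hL.fderiv, hw]

end Pool.Agent.TH908.Cat
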