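import Mathlib

set_option autoImplicit false

open Metric Set Topology

namespace Pool.Agent.TH908.Cat

/-- a smooth convex function vanishing on the negative axis -/
noncomputable def phi (x : ℝ) : ℝ := x * expNegInvGlue x

theorem phi_contDiff : ContDiff ℝ ((⊤ : ℕ∞) : WithTop ℕ∞) phi :=
  contDiff_id.mul (expNegInvGlue.contDiff)

theorem phi_of_nonpos {x : ℝ} (hx : x ≤ 0) : phi x = 0 := by
  simp [phi, expNegInvGlue.zero_of_nonpos hx]

theorem phi_of_pos {x : ℝ} (hx : 0 < x) : phi x = x * Real.exp (-x⁻¹) := by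
  simp [phi, expNegInvGlue, hx.not_ge]

theorem phi_nonneg (x : ℝ) : 0 ≤ phi x := by
  rcases le_or_gt x 0 with h | h
  · rw [phi_of_nonpos h]
  · rw [phi_of_pos h]; positivity

theorem phi_mono : Monotone phi := by
  intro x y hxy
  rcases le_or_gt x 0 with h | h
  · rw [phi_of_nonpos h]; exact phi_nonneg y
  · have hy : 0 < y := h.trans_le hxy
    rw [phi_of_pos h, phi_of_pos hy]
    have : y⁻¹ ≤ x⁻¹ := by gcongr
    have h2 : Real.exp (-x⁻¹) ≤ Real.exp (-y⁻¹) := Real.exp_le_exp.2 (by linarith)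
    have h3 := Real.exp_pos (-x⁻¹)
    nlinarith

/-- tangent line inequality at a positive point -/
theorem phi_tangent {a : ℝ} (ha : 0 < a) (x : ℝ) :
    phi a + (Real.exp (-a⁻¹) * (1 + a⁻¹)) * (x - a) ≤ phi x := by
  have hE := Real.exp_pos (-a⁻¹)
  have hai : 0 < a⁻¹ := inv_pos.2 ha
  have haa : a * a⁻¹ = 1 := mul_inv_cancel₀ ha.ne'
  rcases le_or_gt x 0 with h | h
  · rw [phi_of_nonpos h, phi_of_pos ha]
    have : a * Real.exp (-a⁻¹) + Real.exp (-a⁻¹) * (1 + a⁻¹) * (x - a) =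
      Real.exp (-a⁻¹) * (x + a⁻¹ * x - 1) := by
      linear_combination (-Real.exp (-a⁻¹)) * haa
    rw [this]
    have : a⁻¹ * x ≤ 0 := mul_nonpos_of_nonneg_of_nonpos hai.le h
    nlinarith
  · rw [phi_of_pos h, phi_of_pos ha]
    have hx : x * x⁻¹ = 1 := mul_inv_cancel₀ h.ne'
    have h1 : a⁻¹ - x⁻¹ + 1 ≤ Real.exp (a⁻¹ - x⁻¹) := Real.add_one_le_exp _
    have h2 : Real.exp (-x⁻¹) = Real.exp (-a⁻¹) * Real.exp (a⁻¹ - x⁻¹) := by
      rw [← Real.exp_add]; ring_nf
    rw [h2]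
    have h3 : a * Real.exp (-a⁻¹) + Real.exp (-a⁻¹) * (1 + a⁻¹) * (x - a) =
      Real.exp (-a⁻¹) * (x * (a⁻¹ - x⁻¹ + 1)) := by
      linear_combination (-Real.exp (-a⁻¹)) * haa + Real.exp (-a⁻¹) * hx
    rw [h3]
    have h4 : x * (a⁻¹ - x⁻¹ + 1) ≤ x * Real.exp (a⁻¹ - x⁻¹) := by gcongr
    nlinarith

theorem phi_convex : ConvexOn ℝ univ phi := by
  refine ⟨convex_univ, ?_⟩
  intro x _ y _ s t hs ht hst
  simp only [smul_eq_mul]
  set a := s * x + t * y with hadef
  rcases le_or_gt a 0 with h | h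
  · rw [phi_of_nonpos h]
    have := phi_nonneg x
    have := phi_nonneg y
    positivity
  · have h1 := phi_tangent h x
    have h2 := phi_tangent h y
    have h3 := mul_le_mul_of_nonneg_left h1 hs
    have h4 := mul_le_mul_of_nonneg_left h2 ht
    have h5 : s * (phi a + Real.exp (-a⁻¹) * (1 + a⁻¹) * (x - a)) +
        t * (phi a + Real.exp (-a⁻¹) * (1 + a⁻¹) * (y - a)) =
        (s + t) * phi a + Real.exp (-a⁻¹) * (1 + a⁻¹) * (s * x + t * y - (s + t) * a) := by ring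
    rw [hst, ← hadef] at h5
    linarith

theorem phi_big {x : ℝ} (hx : 2 ≤ x) : 1 ≤ phi x := by
  rw [phi_of_pos (by linarith)]
  have h1 : -x⁻¹ + 1 ≤ Real.exp (-x⁻¹) := Real.add_one_le_exp _
  have h2 : x * x⁻¹ = 1 := mul_inv_cancel₀ (by linarith)
  have h3 : x * (-x⁻¹ + 1) ≤ x * Real.exp (-x⁻¹) := by gcongr
  nlinarith

abbrev E3 := EuclideanSpace ℝ (Fin 3)

noncomputable def rho (x : E3) : ℝ := (x 0) ^ 2 + phi ((x 1) ^ 2 + (x 2) ^ 2 - 3) - 1

def Om : Set E3 := {x | rho x < 0}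

theorem coord_contDiff (k : Fin 3) : ContDiff ℝ ((⊤ : ℕ∞) : WithTop ℕ∞) (fun x : E3 => x k) :=
  (EuclideanSpace.proj (𝕜 := ℝ) k).contDiff

theorem rho_contDiff : ContDiff ℝ ((⊤ : ℕ∞) : WithTop ℕ∞) rho := by
  unfold rho
  have h0 := coord_contDiff 0
  have h1 := coord_contDiff 1
  have h2 := coord_contDiff 2
  exact ((h0.pow 2).add (phi_contDiff.comp (((h1.pow 2).add (h2.pow 2)).sub contDiff_const))).sub
    contDiff_const

theorem sq_conv {s t : ℝ} (hs : 0 ≤ s) (ht : 0 ≤ t) (hst : s + t = 1) (a b : ℝ) :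
    (s * a + t * b) ^ 2 ≤ s * a ^ 2 + t * b ^ 2 := by
  have : s * a ^ 2 + t * b ^ 2 - (s * a + t * b) ^ 2 = s * t * (a - b) ^ 2 := by
    have ht' : t = 1 - s := by linarith
    subst ht'; ring
  have h2 : 0 ≤ s * t * (a - b) ^ 2 := by positivity
  linarith

theorem rho_convex : ConvexOn ℝ univ rho := by
  refine ⟨convex_univ, ?_⟩
  intro x _ y _ s t hs ht hst
  unfold rho
  simp only [PiLp.add_apply, PiLp.smul_apply, smul_eq_mul]
  have h0 := sq_conv hs ht hst (x 0) (y 0)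
  have h1 := sq_conv hs ht hst (x 1) (y 1)
  have h2 := sq_conv hs ht hst (x 2) (y 2)
  have h3 : (s * x 1 + t * y 1) ^ 2 + (s * x 2 + t * y 2) ^ 2 - 3 ≤
    s * ((x 1) ^ 2 + (x 2) ^ 2 - 3) + t * ((y 1) ^ 2 + (y 2) ^ 2 - 3) := by
    have : s * 3 + t * 3 = 3 := by rw [← add_mul, hst, one_mul]
    nlinarith
  have h4 := phi_mono h3
  have h5 := phi_convex.2 (mem_univ ((x 1) ^ 2 + (x 2) ^ 2 - 3))
    (mem_univ ((y 1) ^ 2 + (y 2) ^ 2 - 3)) hs ht hst
  simp only [smul_eq_mul] at h5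
  nlinarith

theorem Om_open : IsOpen Om := isOpen_lt rho_contDiff.continuous continuous_const

theorem Om_convex : Convex ℝ Om := by
  have := rho_convex.convex_lt 0
  simpa [Om] using this

theorem Om_slab {x : E3} (hx : x ∈ Om) : |x 0| < 1 := by
  have h : rho x < 0 := hx
  unfold rho at h
  have := phi_nonneg ((x 1) ^ 2 + (x 2) ^ 2 - 3)
  rw [abs_lt]
  constructor <;> nlinarith

theorem Om_bdd : Bornology.IsBounded Om := by
  apply (Metric.isBounded_ball (x := (0 : E3)) (r := 3)).subset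
  intro x hx
  have h : rho x < 0 := hx
  have h0 := Om_slab hx
  unfold rho at h
  have h1 : (x 1) ^ 2 + (x 2) ^ 2 - 3 < 2 := by
    by_contra hcon
    have := phi_big (not_lt.1 hcon)
    nlinarith
  rw [mem_ball_zero_iff, EuclideanSpace.norm_eq, Real.sqrt_lt' (by norm_num)]
  simp only [Fin.sum_univ_three, Real.norm_eq_abs, sq_abs]
  have := abs_lt.1 h0
  nlinarith

theorem Om_boundary : ∀ x ∈ frontier Om, fderiv ℝ rho x ≠ 0 := by
  intro x hx hd
  have hx0 : 0 ≤ rho x := by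
    by_contra hcon
    have h1 : x ∈ Om := not_le.1 hcon
    have h2 := hx.2
    rw [Om_open.interior_eq] at h2
    exact h2 h1
  have hdiff : DifferentiableAt ℝ rho x := (rho_contDiff.differentiable (by simp)).differentiableAt
  have hg : HasDerivAt (fun t : ℝ => rho (x + t • (0 - x))) 0 0 := by
    have h1 : HasDerivAt (fun t : ℝ => x + t • (0 - x)) ((1 : ℝ) • (0 - x)) 0 :=
      ((hasDerivAt_id (0 : ℝ)).smul_const (0 - x)).const_add x
    have h2 : HasFDerivAt rho (fderiv ℝ rho x) (x + (0 : ℝ) • (0 - x)) := by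
      simpa using hdiff.hasFDerivAt
    have h3 := h2.comp_hasDerivAt (0 : ℝ) h1
    simpa [hd, Function.comp_def] using h3
  have hc : ConvexOn ℝ univ (fun t : ℝ => rho (x + t • (0 - x))) := by
    refine ⟨convex_univ, ?_⟩
    intro a _ b _ s t hs ht hst
    have h1 := rho_convex.2 (mem_univ (x + a • (0 - x))) (mem_univ (x + b • (0 - x))) hs ht hst
    have h2 : s • (x + a • (0 - x)) + t • (x + b • (0 - x)) = x + (s • a + t • b) • (0 - x) := by
      have : x = (s + t) • x := by rw [hst, one_smul]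
      nth_rw 5 [this]
      module
    rw [h2] at h1
    exact h1
  have h4 := hc.le_slope_of_hasDerivAt (mem_univ 0) (mem_univ 1) one_pos hg
  rw [slope_def_field] at h4
  simp at h4
  have h5 : rho 0 = -1 := by
    simp [rho, phi_of_nonpos (show (-3 : ℝ) ≤ 0 by norm_num)]
  rw [h5] at h4
  linarith

end Pool.Agent.TH908.Cat
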