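import Mathlib
import Pool.Agent.TH908.CatA
import Pool.Agent.TH908.CatB

set_option autoImplicit false

open Complex InnerProductSpace Metric Set Topology

namespace Pool.Agent.TH908.Cat

/-- conformal map of the disc onto the strip `|Im| < 1` -/
noncomputable def Ls (z : ℂ) : ℂ := (2 / Real.pi : ℝ) * Complex.log ((1 + z) / (1 - z))

theorem re_pos {z : ℂ} (hz : z ∈ ball (0 : ℂ) 1) : 0 < ((1 + z) / (1 - z)).re := by
  rw [mem_ball_zero_iff] at hz
  have h1 : (1 : ℂ) - z ≠ 0 := by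
    intro h
    have : z = 1 := by linear_combination -h
    rw [this] at hz
    simp at hz
  have hn : z.re * z.re + z.im * z.im < 1 := by
    have := Complex.normSq_eq_norm_sq z
    rw [Complex.normSq_apply] at this
    rw [this]
    nlinarith [norm_nonneg z]
  rw [Complex.div_re, ← add_div]
  apply div_pos
  · simp only [Complex.add_re, Complex.one_re, Complex.sub_re, Complex.add_im, Complex.one_im,
      Complex.sub_im]
    nlinarith
  · exact Complex.normSq_pos.2 h1

noncomputable def Ld (z : ℂ) : ℂ := (4 / Real.pi : ℝ) / ((1 - z) * (1 + z))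

theorem one_sub_ne {z : ℂ} (hz : z ∈ ball (0 : ℂ) 1) : (1 : ℂ) - z ≠ 0 := by
  intro h
  have hp := re_pos hz
  rw [h] at hp
  simp at hp

theorem one_add_ne {z : ℂ} (hz : z ∈ ball (0 : ℂ) 1) : (1 : ℂ) + z ≠ 0 := by
  intro h
  have hp := re_pos hz
  rw [h] at hp
  simp at hp

theorem Ls_deriv {z : ℂ} (hz : z ∈ ball (0 : ℂ) 1) : HasDerivAt Ls (Ld z) z := by
  have hp := re_pos hz
  have h1 := one_sub_ne hz
  have h2 := one_add_ne hz
  have h3 : HasDerivAt (fun w : ℂ => (1 + w) / (1 - w))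
      ((1 * (1 - z) - (1 + z) * (-1)) / (1 - z) ^ 2) z :=
    ((hasDerivAt_id z).const_add 1).div ((hasDerivAt_id z).const_sub 1) h1
  have h4 := (h3.clog (Or.inl hp)).const_mul ((2 / Real.pi : ℝ) : ℂ)
  have hpi : (Real.pi : ℂ) ≠ 0 := by exact_mod_cast Real.pi_ne_zero
  have h5 : ((2 / Real.pi : ℝ) : ℂ) * ((1 * (1 - z) - (1 + z) * (-1)) / (1 - z) ^ 2 /
      ((1 + z) / (1 - z))) = Ld z := by
    simp only [Ld]
    push_cast
    field_simp
    ring
  rw [h5] at h4
  exact h4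

theorem Ls_zero : Ls 0 = 0 := by simp [Ls]

theorem Ls_im {z : ℂ} (hz : z ∈ ball (0 : ℂ) 1) : |(Ls z).im| < 1 := by
  have hp := re_pos hz
  have hpi := Real.pi_pos
  simp only [Ls]
  rw [Complex.im_ofReal_mul, Complex.log_im, abs_mul, abs_of_pos (by positivity)]
  have h1 : |arg ((1 + z) / (1 - z))| < Real.pi / 2 :=
    Complex.abs_arg_lt_pi_div_two_iff.2 (Or.inl hp)
  calc 2 / Real.pi * |arg ((1 + z) / (1 - z))| < 2 / Real.pi * (Real.pi / 2) := by gcongr
    _ = 1 := by field_simp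

/-- the holomorphic null curve of the catenoid, reparametrised by the disc -/
noncomputable def Phi (k : Fin 3) (z : ℂ) : ℂ :=
  ![-I * Ls z, Complex.cos (Ls z), Complex.sin (Ls z)] k

noncomputable def PhiD (k : Fin 3) (z : ℂ) : ℂ :=
  ![-I * Ld z, -Complex.sin (Ls z) * Ld z, Complex.cos (Ls z) * Ld z] k

theorem Phi_deriv {z : ℂ} (hz : z ∈ ball (0 : ℂ) 1) (k : Fin 3) :
    HasDerivAt (Phi k) (PhiD k z) z := by
  have h := Ls_deriv hz
  fin_cases k
  · exact h.const_mul (-I)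
  · exact h.ccos
  · exact h.csin

noncomputable def f0 (z : ℂ) : E3 := vre (fun k => Phi k z)

theorem f0_fderiv {z : ℂ} (hz : z ∈ ball (0 : ℂ) 1) (w : ℂ) :
    fderiv ℝ f0 z w = vre (fun k => PhiD k z * w) :=
  fderiv_vre (Phi_deriv hz) w

theorem Phi_diff (k : Fin 3) : DifferentiableOn ℂ (Phi k) (ball (0 : ℂ) 1) :=
  fun _ hz => (Phi_deriv hz k).differentiableAt.differentiableWithinAt

theorem f0_smooth : ContDiffOn ℝ 2 f0 (ball (0 : ℂ) 1) := by
  have h1 : ∀ k, ContDiffOn ℝ 2 (fun z => (Phi k z).re) (ball (0 : ℂ) 1) := by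
    intro k
    have h2 : ContDiffOn ℂ 2 (Phi k) (ball (0 : ℂ) 1) := (Phi_diff k).contDiffOn isOpen_ball
    have h3 : ContDiffOn ℝ 2 (Phi k) (ball (0 : ℂ) 1) := h2.restrict_scalars ℝ
    exact reCLM.contDiff.comp_contDiffOn h3
  have h4 : ContDiffOn ℝ 2 (fun z => fun k => (Phi k z).re) (ball (0 : ℂ) 1) :=
    contDiffOn_pi.2 h1
  exact (EuclideanSpace.equiv (Fin 3) ℝ).symm.contDiff.comp_contDiffOn h4

theorem f0_conf {z : ℂ} (hz : z ∈ ball (0 : ℂ) 1) :
    ‖fderiv ℝ f0 z (1 : ℂ)‖ = ‖fderiv ℝ f0 z Complex.I‖ ∧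
      inner ℝ (fderiv ℝ f0 z (1 : ℂ)) (fderiv ℝ f0 z Complex.I) = 0 := by
  rw [f0_fderiv hz, f0_fderiv hz]
  have hsum : (PhiD 0 z) ^ 2 + (PhiD 1 z) ^ 2 + (PhiD 2 z) ^ 2 = 0 := by
    simp only [PhiD, Matrix.cons_val_zero, Matrix.cons_val_one, Matrix.cons_val]
    linear_combination (Ld z) ^ 2 * (Complex.sin_sq_add_cos_sq (Ls z)) + (Ld z) ^ 2 * Complex.I_sq
  have hre := congrArg Complex.re hsum
  have him := congrArg Complex.im hsum
  simp only [pow_two, Complex.add_re, Complex.mul_re, Complex.add_im, Complex.mul_im,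
    Complex.zero_re, Complex.zero_im] at hre him
  constructor
  · rw [EuclideanSpace.norm_eq, EuclideanSpace.norm_eq]
    congr 1
    simp only [Fin.sum_univ_three, Real.norm_eq_abs, sq_abs, vre]
    simp only [mul_one, Complex.mul_re, Complex.I_re, Complex.I_im]
    nlinarith
  · simp only [PiLp.inner_apply, Fin.sum_univ_three, vre]
    simp only [mul_one, Complex.mul_re, Complex.I_re, Complex.I_im, RCLike.inner_apply,
      conj_trivial]
    linarith

theorem f0_harm {z : ℂ} (hz : z ∈ ball (0 : ℂ) 1) :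
    fderiv ℝ (fun w => fderiv ℝ f0 w (1 : ℂ)) z (1 : ℂ) +
      fderiv ℝ (fun w => fderiv ℝ f0 w Complex.I) z Complex.I = 0 := by
  have key : ∀ c : ℂ, fderiv ℝ (fun w => fderiv ℝ f0 w c) z c =
      vre (fun k => deriv (PhiD k) z * c * c) := by
    intro c
    have h1 : (fun w => fderiv ℝ f0 w c) =ᶠ[𝓝 z] fun w => vre (fun k => PhiD k w * c) := by
      filter_upwards [isOpen_ball.mem_nhds hz] with w hw
      exact f0_fderiv hw c
    rw [h1.fderiv_eq]
    apply fderiv_vre (Φ := fun k w => PhiD k w * c)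
    intro k
    apply HasDerivAt.mul_const
    apply DifferentiableAt.hasDerivAt
    have h2 : (PhiD k) =ᶠ[𝓝 z] deriv (Phi k) := by
      filter_upwards [isOpen_ball.mem_nhds hz] with w hw
      exact (Phi_deriv hw k).deriv.symm
    exact (((Phi_diff k).deriv isOpen_ball).differentiableAt
      (isOpen_ball.mem_nhds hz)).congr_of_eventuallyEq h2
  rw [key, key]
  ext k
  simp only [vre, PiLp.add_apply, PiLp.zero_apply, mul_one]
  rw [mul_assoc, Complex.I_mul_I]
  simp

theorem f0_mem {z : ℂ} (hz : z ∈ ball (0 : ℂ) 1) : f0 z ∈ Om := by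
  have him := Ls_im hz
  have h0 : (f0 z) 0 = (Ls z).im := by
    simp [f0, vre, Phi]
  have h1 : (f0 z) 1 = (Complex.cos (Ls z)).re := by
    simp [f0, vre, Phi]
  have h2 : (f0 z) 2 = (Complex.sin (Ls z)).re := by
    simp [f0, vre, Phi]
  have hc : (Complex.cos (Ls z)).re = Real.cos (Ls z).re * Real.cosh (Ls z).im := by
    nth_rw 1 [← Complex.re_add_im (Ls z)]
    rw [Complex.cos_add_mul_I]
    rw [← Complex.ofReal_cos, ← Complex.ofReal_cosh, ← Complex.ofReal_sin, ← Complex.ofReal_sinh]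
    simp only [Complex.sub_re, Complex.mul_re, Complex.mul_im, Complex.ofReal_re,
      Complex.ofReal_im, Complex.I_re, Complex.I_im]
    ring
  have hs : (Complex.sin (Ls z)).re = Real.sin (Ls z).re * Real.cosh (Ls z).im := by
    nth_rw 1 [← Complex.re_add_im (Ls z)]
    rw [Complex.sin_add_mul_I]
    rw [← Complex.ofReal_cos, ← Complex.ofReal_cosh, ← Complex.ofReal_sin, ← Complex.ofReal_sinh]
    simp only [Complex.add_re, Complex.mul_re, Complex.mul_im, Complex.ofReal_re,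
      Complex.ofReal_im, Complex.I_re, Complex.I_im]
    ring
  have hcosh : (Real.cosh (Ls z).im) ^ 2 ≤ 3 := by
    have h3 : Real.cosh (Ls z).im ≤ Real.cosh 1 := by
      rw [Real.cosh_le_cosh]
      rw [abs_one]
      exact him.le
    have h4 : Real.cosh 1 ≤ 1.6 := by
      rw [Real.cosh_eq]
      have h5 := Real.exp_one_lt_d9
      have h6 : Real.exp (-1) ≤ 0.4 := by
        rw [Real.exp_neg]
        have h7 := Real.exp_one_gt_d9
        rw [inv_le_comm₀ (by positivity) (by norm_num)]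
        norm_num
        linarith
      linarith
    have h8 : 0 < Real.cosh (Ls z).im := Real.cosh_pos _
    nlinarith
  show rho (f0 z) < 0
  unfold rho
  rw [h0, h1, h2, hc, hs]
  have h9 : (Real.cos (Ls z).re * Real.cosh (Ls z).im) ^ 2 +
      (Real.sin (Ls z).re * Real.cosh (Ls z).im) ^ 2 - 3 ≤ 0 := by
    have := Real.sin_sq_add_cos_sq (Ls z).re
    have h10 : (Real.cos (Ls z).re * Real.cosh (Ls z).im) ^ 2 +
      (Real.sin (Ls z).re * Real.cosh (Ls z).im) ^ 2 =
      (Real.sin (Ls z).re ^ 2 + Real.cos (Ls z).re ^ 2) * (Real.cosh (Ls z).im) ^ 2 := by ring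
    rw [h10, this]
    linarith
  rw [phi_of_nonpos h9]
  have := abs_lt.1 him
  nlinarith

/-- the other point with the same image as the centre -/
noncomputable def z1 : ℂ := (((Real.exp (Real.pi ^ 2) - 1) / (Real.exp (Real.pi ^ 2) + 1) : ℝ) : ℂ)

theorem z1_mem : z1 ∈ ball (0 : ℂ) 1 := by
  rw [mem_ball_zero_iff]
  unfold z1
  rw [Complex.norm_real, Real.norm_eq_abs]
  have := Real.exp_pos (Real.pi ^ 2)
  rw [abs_lt]
  constructor
  · rw [lt_div_iff₀ (by linarith)]; linarith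
  · rw [div_lt_iff₀ (by linarith)]; linarith

theorem z1_ne : z1 ≠ 0 := by
  unfold z1
  have := Real.exp_pos (Real.pi ^ 2)
  have h2 : 1 < Real.exp (Real.pi ^ 2) := by
    rw [Real.one_lt_exp_iff]
    positivity
  norm_cast
  apply div_ne_zero <;> linarith

theorem Ls_z1 : Ls z1 = (2 * Real.pi : ℝ) := by
  have hE := Real.exp_pos (Real.pi ^ 2)
  have h1 : (1 + z1) / (1 - z1) = (Real.exp (Real.pi ^ 2) : ℝ) := by
    unfold z1
    norm_cast
    field_simp
    ring
  unfold Ls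
  rw [h1, ← Complex.ofReal_log hE.le, Real.log_exp]
  norm_cast
  have := Real.pi_pos
  field_simp

theorem f0_z1 : f0 z1 = f0 0 := by
  ext k
  fin_cases k
  · simp [f0, vre, Phi, Ls_z1, Ls_zero]
  · simp [f0, vre, Phi, Ls_z1, Ls_zero]
  · simp [f0, vre, Phi, Ls_z1, Ls_zero]

end Pool.Agent.TH908.Cat
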