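import Mathlib
import Pool.Agent.TH908.CatC

set_option autoImplicit false

open Complex InnerProductSpace Metric Set Topology

namespace Pool.Agent.TH908.Cat

theorem harm_of {g : ℂ → E3} (hC : ContDiffOn ℝ 2 g (ball (0 : ℂ) 1))
    (hh : ∀ z ∈ ball (0 : ℂ) 1, fderiv ℝ (fun w => fderiv ℝ g w (1 : ℂ)) z (1 : ℂ) +
      fderiv ℝ (fun w => fderiv ℝ g w Complex.I) z Complex.I = 0) :
    HarmonicOnNhd g (ball (0 : ℂ) 1) := by
  have hCA : ∀ z ∈ ball (0 : ℂ) 1, ContDiffAt ℝ 2 g z := fun z hz =>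
    hC.contDiffAt (isOpen_ball.mem_nhds hz)
  intro x hx
  refine ⟨hCA x hx, ?_⟩
  filter_upwards [isOpen_ball.mem_nhds hx] with z hz
  have hd : DifferentiableAt ℝ (fderiv ℝ g) z :=
    ((hCA z hz).fderiv_right (m := 1) (by norm_num)).differentiableAt (by norm_num)
  have key : ∀ c : ℂ, fderiv ℝ (fun w => fderiv ℝ g w c) z c = fderiv ℝ (fderiv ℝ g) z c c := by
    intro c
    rw [fderiv_clm_apply hd (by fun_prop)]
    simp
  have h1 := hh z hz
  rw [key, key] at h1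
  rw [laplacian_eq_iteratedFDeriv_complexPlane]
  simp only [iteratedFDeriv_two_apply, Matrix.cons_val_zero, Matrix.cons_val_one,
    Matrix.cons_val_fin_one, Pi.zero_apply]
  exact h1

noncomputable def uu : E3 := WithLp.toLp 2 ![0, 0, 1]
noncomputable def vv : E3 := WithLp.toLp 2 ![1, 0, 0]

theorem upper {g : ℂ → E3} {s : ℝ} (hC : ContDiffOn ℝ 2 g (ball (0 : ℂ) 1))
    (hm : ∀ z ∈ ball (0 : ℂ) 1, g z ∈ Om)
    (hh : ∀ z ∈ ball (0 : ℂ) 1, fderiv ℝ (fun w => fderiv ℝ g w (1 : ℂ)) z (1 : ℂ) +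
      fderiv ℝ (fun w => fderiv ℝ g w Complex.I) z Complex.I = 0)
    (h0 : g 0 = f0 0) (hI : fderiv ℝ g 0 Complex.I = s • vv) : s ≤ 4 / Real.pi := by
  have hg := harm_of hC hh
  let P : E3 →L[ℝ] ℝ := EuclideanSpace.proj 0
  have h1 : HarmonicOnNhd (P ∘ g) (ball (0 : ℂ) 1) := fun x hx => (hg x hx).comp_CLM P
  have m0 : (0 : ℂ) ∈ ball (0 : ℂ) 1 := mem_ball_self one_pos
  have h2 := bound h1 (fun z hz => Om_slab (hm z hz)) (by
    show (g 0) 0 = 0
    rw [h0]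
    simp [f0, vre, Phi, Ls_zero])
  have h3 : fderiv ℝ (P ∘ g) 0 = P.comp (fderiv ℝ g 0) := by
    rw [fderiv_comp _ P.differentiableAt
      ((hC.contDiffAt (isOpen_ball.mem_nhds m0)).differentiableAt (by norm_num))]
    simp
  rw [h3] at h2
  have h4 : (P.comp (fderiv ℝ g 0)) Complex.I = s := by
    rw [ContinuousLinearMap.comp_apply, hI]
    simp [P, vv]
  rw [h4] at h2
  exact (le_abs_self s).trans h2

theorem f0_one : fderiv ℝ f0 0 (1 : ℂ) = (4 / Real.pi) • uu := by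
  rw [f0_fderiv (mem_ball_self one_pos)]
  ext k
  fin_cases k
  · simp [vre, PhiD, uu, Ld, Ls_zero]
  · simp [vre, PhiD, uu, Ld, Ls_zero]
  · simp [vre, PhiD, uu, Ld, Ls_zero]

theorem f0_I : fderiv ℝ f0 0 Complex.I = (4 / Real.pi) • vv := by
  rw [f0_fderiv (mem_ball_self one_pos)]
  ext k
  fin_cases k
  · simp [vre, PhiD, vv, Ld, Ls_zero]
  · simp [vre, PhiD, vv, Ld, Ls_zero]
  · simp [vre, PhiD, vv, Ld, Ls_zero]

theorem uu_norm : ‖uu‖ = 1 := by
  rw [EuclideanSpace.norm_eq]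
  simp [Fin.sum_univ_three, uu]

theorem vv_norm : ‖vv‖ = 1 := by
  rw [EuclideanSpace.norm_eq]
  simp [Fin.sum_univ_three, vv]

theorem uv_inner : inner ℝ uu vv = 0 := by
  simp [PiLp.inner_apply, Fin.sum_univ_three, uu, vv]

end Pool.Agent.TH908.Cat
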