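import Pool.Agent.TH37.RF.Defs

set_option autoImplicit false

namespace Pool.Agent.TH908.CUTFG
open Pool.Agent.TH37.RF

variable {F C Q : Type} [Field F] [Ring C] [Algebra F C] [Ring Q] [Algebra F Q]

/-- the ideal `ker φ ∩ ker ε` as a subspace -/
def JJ (ε : C →ₐ[F] F) (φ : C →ₐ[F] Q) : Submodule F C :=
  LinearMap.ker (LinearMap.prod φ.toLinearMap ε.toLinearMap)

theorem mem_JJ {ε : C →ₐ[F] F} {φ : C →ₐ[F] Q} {x : C} : x ∈ JJ ε φ ↔ φ x = 0 ∧ ε x = 0 := by
  simp [JJ, LinearMap.mem_ker]

theorem mem_Cut_of {ε : C →ₐ[F] F} {φ : C →ₐ[F] Q} {x : C} (h : x ∈ JJ ε φ) : x ∈ Cut ε φ := by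
  rw [mem_JJ] at h
  show φ x = ((Algebra.ofId F Q).comp ε) x
  simp [h.1, h.2]

theorem mul_mem_JJ {ε : C →ₐ[F] F} {φ : C →ₐ[F] Q} (u : C) {x : C} (h : x ∈ JJ ε φ) :
    u * x ∈ JJ ε φ := by
  rw [mem_JJ] at h ⊢
  simp [h.1, h.2]

theorem mem_mul_JJ {ε : C →ₐ[F] F} {φ : C →ₐ[F] Q} (u : C) {x : C} (h : x ∈ JJ ε φ) :
    x * u ∈ JJ ε φ := by
  rw [mem_JJ] at h ⊢
  simp [h.1, h.2]

/-- a submodule containing `1` and stable under left multiplication by generators is everything -/
theorem stable_top {r : ℕ} (b : Fin r → C) (hb : Algebra.adjoin F (Set.range b) = ⊤)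
    (M : Submodule F C) (h1 : (1 : C) ∈ M) (hM : ∀ j, ∀ x ∈ M, b j * x ∈ M) : M = ⊤ := by
  let T : Subalgebra F C :=
    { carrier := {c | ∀ x ∈ M, c * x ∈ M}
      mul_mem' := by
        intro u v hu hv x hx
        rw [mul_assoc]
        exact hu _ (hv _ hx)
      one_mem' := by
        intro x hx
        simpa using hx
      add_mem' := by
        intro u v hu hv x hx
        rw [add_mul]
        exact M.add_mem (hu _ hx) (hv _ hx)
      zero_mem' := by
        intro x hx
        simp
      algebraMap_mem' := by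
        intro a x hx
        rw [← Algebra.smul_def]
        exact M.smul_mem _ hx }
  have hT : T = ⊤ := by
    rw [eq_top_iff, ← hb, Algebra.adjoin_le_iff]
    rintro _ ⟨j, rfl⟩
    exact fun x hx => hM j x hx
  rw [eq_top_iff]
  intro c _
  have hc : c ∈ T := by rw [hT]; trivial
  have := hc 1 h1
  simpa using this

/-- JOB CUTFG -/
theorem cut_fg [Finite F] [Finite Q] (ε : C →ₐ[F] F) (hfg : FGen ε) (φ : C →ₐ[F] Q) :
    FGen (cutε ε φ) := by
  classical
  obtain ⟨r, b, hb0, hb⟩ := hfg
  have : Finite (C ⧸ JJ ε φ) := by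
    have e := (LinearMap.quotKerEquivRange (LinearMap.prod φ.toLinearMap ε.toLinearMap))
    have : Finite (LinearMap.range (LinearMap.prod φ.toLinearMap ε.toLinearMap)) := inferInstance
    exact Finite.of_equiv _ e.symm.toEquiv
  -- coset representatives
  let out : C ⧸ JJ ε φ → C := Quotient.out
  have hout : ∀ c : C, c - out (Submodule.Quotient.mk c) ∈ JJ ε φ := by
    intro c
    rw [← Submodule.Quotient.eq]
    exact (Quotient.out_eq _).symm
  let R : Set C := insert 1 (Set.range out)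
  have hRfin : R.Finite := (Set.finite_range out).insert 1
  let V : Submodule F C := Submodule.span F R
  have h1V : (1 : C) ∈ V := Submodule.subset_span (Set.mem_insert _ _)
  have hVfin : (V : Set C).Finite := by
    have : Finite R := hRfin
    have h2 : Module.Finite F V := Module.Finite.span_of_finite F hRfin
    have : Finite V := Module.finite_of_finite F
    exact Set.toFinite _
  let D : Set C := Set.image2 (fun (j : Fin r) (v : C) =>
    b j * v - out (Submodule.Quotient.mk (b j * v))) Set.univ R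
  have hDfin : D.Finite := Set.Finite.image2 _ Set.finite_univ hRfin
  let G : Set C := D ∪ ((V : Set C) ∩ (JJ ε φ : Set C))
  have hGfin : G.Finite := hDfin.union (hVfin.inter_of_left _)
  have hGJ : ∀ g ∈ G, g ∈ JJ ε φ := by
    rintro g (⟨j, _, v, _, rfl⟩ | hg)
    · exact hout _
    · exact hg.2
  let G1 : Set C := Set.image2 (· * ·) R G
  have hG1fin : G1.Finite := Set.Finite.image2 _ hRfin hGfin
  have hG1J : ∀ g ∈ G1, g ∈ JJ ε φ := by
    rintro _ ⟨v, _, g, hg, rfl⟩
    exact mul_mem_JJ v (hGJ g hg)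
  let A : Subalgebra F C := Algebra.adjoin F G1
  have hGA : ∀ g ∈ G, g ∈ A := by
    intro g hg
    refine Algebra.subset_adjoin ⟨1, Set.mem_insert _ _, g, hg, one_mul _⟩
  -- `S = span of v g a`
  let S : Submodule F C := Submodule.span F (Set.image2 (· * ·) G1 (A : Set C))
  have hSmem : ∀ v ∈ R, ∀ g ∈ G, ∀ a ∈ A, v * g * a ∈ S := by
    intro v hv g hg a ha
    exact Submodule.subset_span ⟨v * g, ⟨v, hv, g, hg, rfl⟩, a, ha, rfl⟩
  have hSmem1 : ∀ g ∈ G, ∀ a ∈ A, g * a ∈ S := by
    intro g hg a ha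
    have := hSmem 1 (Set.mem_insert _ _) g hg a ha
    simpa using this
  have hSmem2 : ∀ g ∈ G, g ∈ S := by
    intro g hg
    have := hSmem1 g hg 1 A.one_mem
    simpa using this
  have hSA : S ≤ Subalgebra.toSubmodule A := by
    rw [Submodule.span_le]
    rintro _ ⟨g, hg, a, ha, rfl⟩
    exact A.mul_mem (Algebra.subset_adjoin hg) ha
  have hSJ : S ≤ JJ ε φ := by
    rw [Submodule.span_le]
    rintro _ ⟨g, hg, a, ha, rfl⟩
    exact mem_mul_JJ a (hG1J g hg)
  have hdec : ∀ j, ∀ v ∈ R, ∃ v' ∈ R, ∃ g ∈ G, b j * v = v' + g := by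
    intro j v hv
    refine ⟨out (Submodule.Quotient.mk (b j * v)), Set.mem_insert_of_mem _ ⟨_, rfl⟩,
      b j * v - out (Submodule.Quotient.mk (b j * v)), Or.inl ⟨j, trivial, v, hv, rfl⟩, ?_⟩
    abel
  have htop : V ⊔ S = ⊤ := by
    refine stable_top b hb _ (Submodule.mem_sup_left h1V) ?_
    intro j x hx
    rw [Submodule.mem_sup] at hx
    obtain ⟨v, hv, s, hs, rfl⟩ := hx
    rw [mul_add]
    refine Submodule.add_mem _ ?_ ?_
    · have : V ≤ (V ⊔ S).comap (LinearMap.mulLeft F (b j)) := by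
        rw [Submodule.span_le]
        intro v hv
        obtain ⟨v', hv', g, hg, h⟩ := hdec j v hv
        show b j * v ∈ V ⊔ S
        rw [h]
        exact Submodule.add_mem _ (Submodule.mem_sup_left (Submodule.subset_span hv'))
          (Submodule.mem_sup_right (hSmem2 g hg))
      exact this hv
    · refine Submodule.mem_sup_right ?_
      have : S ≤ S.comap (LinearMap.mulLeft F (b j)) := by
        rw [Submodule.span_le]
        rintro _ ⟨_, ⟨v, hv, g, hg, rfl⟩, a, ha, rfl⟩
        obtain ⟨v', hv', g', hg', h⟩ := hdec j v hv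
        show b j * (v * g * a) ∈ S
        have h2 : b j * (v * g * a) = v' * g * a + g' * (g * a) := by
          rw [show b j * (v * g * a) = (b j * v) * g * a by noncomm_ring, h]
          noncomm_ring
        rw [h2]
        exact S.add_mem (hSmem v' hv' g hg a ha) (hSmem1 g' hg' _ (A.mul_mem (hGA g hg) ha))
      exact this hs
  have hJA : ∀ x ∈ JJ ε φ, x ∈ A := by
    intro x hx
    have hx' : x ∈ V ⊔ S := by rw [htop]; trivial
    rw [Submodule.mem_sup] at hx'
    obtain ⟨v, hv, s, hs, rfl⟩ := hx'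
    have hvJ : v ∈ JJ ε φ := by
      have := (JJ ε φ).sub_mem hx (hSJ hs)
      simpa using this
    exact A.add_mem (hGA v (Or.inr ⟨hv, hvJ⟩)) (hSA hs)
  have hCA : Cut ε φ = A := by
    apply le_antisymm
    · intro x hx
      have hx' : φ x = ((Algebra.ofId F Q).comp ε) x := hx
      have h3 : x - algebraMap F C (ε x) ∈ JJ ε φ := by
        rw [mem_JJ]
        constructor
        · rw [map_sub, hx']
          simp [Algebra.ofId_apply]
        · simp
      have h4 := A.add_mem (hJA _ h3) (A.algebraMap_mem (ε x))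
      simpa using h4
    · rw [Algebra.adjoin_le_iff]
      intro g hg
      exact mem_Cut_of (hG1J g hg)
  -- conclusion
  have : Finite G1 := hG1fin
  obtain ⟨n, ⟨e⟩⟩ := Finite.exists_equiv_fin G1
  let b' : Fin n → Cut ε φ := fun i => ⟨(e.symm i).1, mem_Cut_of (hG1J _ (e.symm i).2)⟩
  refine ⟨n, b', ?_, ?_⟩
  · intro i
    exact (mem_JJ.1 (hG1J _ (e.symm i).2)).2
  · apply Subalgebra.map_injective (f := (Cut ε φ).val) Subtype.val_injective
    rw [Algebra.map_top, AlgHom.map_adjoin]
    have h5 : (Cut ε φ).val '' Set.range b' = G1 := by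
      ext x
      constructor
      · rintro ⟨_, ⟨i, rfl⟩, rfl⟩
        exact (e.symm i).2
      · intro hx
        refine ⟨b' (e ⟨x, hx⟩), ⟨_, rfl⟩, ?_⟩
        show ((e.symm (e ⟨x, hx⟩) : G1) : C) = x
        rw [Equiv.symm_apply_apply]
    rw [h5, Subalgebra.range_val]
    exact hCA.symm

end Pool.Agent.TH908.CUTFG
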