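import Pool.Agent.TH37.RF.Defs

set_option autoImplicit false

namespace Pool.Agent.TH908.RFCUT
open Pool.Agent.TH37.RF

variable {F C Q : Type} [Field F] [Ring C] [Algebra F C] [Ring Q] [Algebra F Q]

/-- the ideal `ker φ ∩ ker ε` as an additive subgroup -/
def JJ (ε : C →ₐ[F] F) (φ : C →ₐ[F] Q) : AddSubgroup C :=
  (AddMonoidHom.prod (φ : C →+ Q) (ε : C →+ F)).ker

theorem mem_JJ {ε : C →ₐ[F] F} {φ : C →ₐ[F] Q} {x : C} : x ∈ JJ ε φ ↔ φ x = 0 ∧ ε x = 0 := by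
  simp [JJ, AddMonoidHom.mem_ker]

theorem mem_Cut_of {ε : C →ₐ[F] F} {φ : C →ₐ[F] Q} {x : C} (h : x ∈ JJ ε φ) : x ∈ Cut ε φ := by
  rw [mem_JJ] at h
  show φ x = ((Algebra.ofId F Q).comp ε) x
  simp [h.1, h.2]

theorem mul_mem_JJ {ε : C →ₐ[F] F} {φ : C →ₐ[F] Q} (u : C) {x : C} (h : x ∈ JJ ε φ) :
    u * x ∈ JJ ε φ := by
  rw [mem_JJ] at h ⊢
  simp [h.1, h.2]

/-- the left ideal of all `x ∈ J` with `φ' (u x) = 0` for all `u` -/
def LL {Q' : Type} [Ring Q'] [Algebra F Q'] (ε : C →ₐ[F] F) (φ : C →ₐ[F] Q)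
    (φ' : Cut ε φ →ₐ[F] Q') : Ideal C where
  carrier := {x | ∃ h : x ∈ JJ ε φ, ∀ u : C, φ' ⟨u * x, mem_Cut_of (mul_mem_JJ u h)⟩ = 0}
  add_mem' := by
    rintro x y ⟨hx, hx'⟩ ⟨hy, hy'⟩
    refine ⟨add_mem hx hy, fun u => ?_⟩
    have : (⟨u * (x + y), mem_Cut_of (mul_mem_JJ u (add_mem hx hy))⟩ : Cut ε φ) =
      ⟨u * x, mem_Cut_of (mul_mem_JJ u hx)⟩ + ⟨u * y, mem_Cut_of (mul_mem_JJ u hy)⟩ := by
      apply Subtype.ext
      simp [mul_add]
    rw [this, map_add, hx', hy', add_zero]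
  zero_mem' := by
    refine ⟨zero_mem _, fun u => ?_⟩
    have : (⟨u * 0, mem_Cut_of (mul_mem_JJ u (zero_mem _))⟩ : Cut ε φ) = 0 := by
      apply Subtype.ext
      simp
    rw [this, map_zero]
  smul_mem' := by
    rintro c x ⟨hx, hx'⟩
    refine ⟨mul_mem_JJ c hx, fun u => ?_⟩
    have : (⟨u * (c • x), mem_Cut_of (mul_mem_JJ u (mul_mem_JJ c hx))⟩ : Cut ε φ) =
      ⟨(u * c) * x, mem_Cut_of (mul_mem_JJ (u * c) hx)⟩ := by
      apply Subtype.ext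
      simp [mul_assoc]
    rw [this, hx']

/-- JOB RFCUT -/
theorem rf_of_cut [Finite F]
    [Finite Q] (ε : C →ₐ[F] F) (φ : C →ₐ[F] Q) (h : ResFin F (Cut ε φ)) : ResFin F C := by
  intro a ha
  by_cases h1 : φ a ≠ 0
  · exact ⟨Q, _, _, ‹_›, φ, h1⟩
  by_cases h2 : ε a ≠ 0
  · exact ⟨F, _, _, ‹_›, ε, h2⟩
  push Not at h1 h2
  have haJ : a ∈ JJ ε φ := mem_JJ.2 ⟨h1, h2⟩
  obtain ⟨Q', _, _, _, φ', hφ'⟩ := h ⟨a, mem_Cut_of haJ⟩ (by
    intro h0
    exact ha (congrArg Subtype.val h0))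
  have : Finite (Q × F) := inferInstance
  have hJfin : (JJ ε φ).FiniteIndex := by
    unfold JJ
    exact AddSubgroup.finiteIndex_ker _
  have : Finite (C ⧸ JJ ε φ) := AddSubgroup.finite_quotient_of_finiteIndex
  -- the additive map on J
  let Θ₁ : JJ ε φ →+ ((C ⧸ JJ ε φ) → Q') :=
    { toFun := fun x r => φ' ⟨r.out * x.1, mem_Cut_of (mul_mem_JJ _ x.2)⟩
      map_zero' := by
        funext r
        have : (⟨r.out * ((0 : JJ ε φ) : C), mem_Cut_of (mul_mem_JJ _ (0 : JJ ε φ).2)⟩ :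
          Cut ε φ) = 0 := by
          apply Subtype.ext
          simp
        rw [this, map_zero]
        rfl
      map_add' := by
        intro x y
        funext r
        have : (⟨r.out * ((x + y : JJ ε φ) : C), mem_Cut_of (mul_mem_JJ _ (x + y).2)⟩ :
          Cut ε φ) = ⟨r.out * x.1, mem_Cut_of (mul_mem_JJ _ x.2)⟩ +
            ⟨r.out * y.1, mem_Cut_of (mul_mem_JJ _ y.2)⟩ := by
          apply Subtype.ext
          simp [mul_add]
        rw [this, map_add]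
        rfl }
  let Θ₂ : JJ ε φ →+ Q' :=
    { toFun := fun x => φ' ⟨x.1, mem_Cut_of x.2⟩
      map_zero' := by
        have : (⟨((0 : JJ ε φ) : C), mem_Cut_of (0 : JJ ε φ).2⟩ : Cut ε φ) = 0 := rfl
        rw [this, map_zero]
      map_add' := by
        intro x y
        have : (⟨((x + y : JJ ε φ) : C), mem_Cut_of (x + y).2⟩ : Cut ε φ) =
          ⟨x.1, mem_Cut_of x.2⟩ + ⟨y.1, mem_Cut_of y.2⟩ := rfl
        rw [this, map_add] }
  have hΘ : (Θ₁.prod Θ₂).ker.FiniteIndex := AddSubgroup.finiteIndex_ker _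
  have hsub : ∀ x : JJ ε φ, x ∈ (Θ₁.prod Θ₂).ker → (x : C) ∈ LL ε φ φ' := by
    intro x hx
    refine ⟨x.2, fun u => ?_⟩
    rw [AddMonoidHom.mem_ker, AddMonoidHom.prod_apply, Prod.mk_eq_zero] at hx
    have h3 := congrFun hx.1 (QuotientAddGroup.mk u)
    have h4 : φ' ⟨(QuotientAddGroup.mk u : C ⧸ JJ ε φ).out * x.1,
      mem_Cut_of (mul_mem_JJ _ x.2)⟩ = 0 := h3
    have h6 : φ' ⟨x.1, mem_Cut_of x.2⟩ = 0 := hx.2
    set r := (QuotientAddGroup.mk u : C ⧸ JJ ε φ).out with hr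
    have hj : -r + u ∈ JJ ε φ := by
      rw [← QuotientAddGroup.eq]
      rw [hr]
      exact QuotientAddGroup.out_eq' _
    have h5 : (⟨u * x.1, mem_Cut_of (mul_mem_JJ u x.2)⟩ : Cut ε φ) =
        ⟨r * x.1, mem_Cut_of (mul_mem_JJ _ x.2)⟩ +
          ⟨-r + u, mem_Cut_of hj⟩ * ⟨x.1, mem_Cut_of x.2⟩ := by
      apply Subtype.ext
      simp only [Subalgebra.coe_add, Subalgebra.coe_mul]
      noncomm_ring
    rw [h5, map_add, map_mul, h4, h6, mul_zero, add_zero]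
  have hle : (LL ε φ φ').toAddSubgroup ≤ JJ ε φ := fun x hx => hx.1
  have hrel : ((LL ε φ φ').toAddSubgroup).relIndex (JJ ε φ) ≠ 0 := by
    have h7 : (Θ₁.prod Θ₂).ker ≤ ((LL ε φ φ').toAddSubgroup).addSubgroupOf (JJ ε φ) := by
      intro x hx
      rw [AddSubgroup.mem_addSubgroupOf]
      exact hsub x hx
    have h8 : (((LL ε φ φ').toAddSubgroup).addSubgroupOf (JJ ε φ)).FiniteIndex :=
      AddSubgroup.finiteIndex_of_le h7
    exact h8.index_ne_zero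
  have hfi : ((LL ε φ φ').toAddSubgroup).FiniteIndex := by
    constructor
    rw [← AddSubgroup.relIndex_mul_index hle]
    exact mul_ne_zero hrel hJfin.index_ne_zero
  have hM : Finite (C ⧸ LL ε φ φ') :=
    AddSubgroup.finite_quotient_of_finiteIndex (H := (LL ε φ φ').toAddSubgroup)
  have hE : Finite (Module.End F (C ⧸ LL ε φ φ')) :=
    Finite.of_injective (fun f : Module.End F (C ⧸ LL ε φ φ') => (f : _ → _))
      DFunLike.coe_injective
  refine ⟨Module.End F (C ⧸ LL ε φ φ'), inferInstance, inferInstance, hE,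
    Algebra.lsmul F F (C ⧸ LL ε φ φ'), ?_⟩
  intro h0
  have h9 : (Algebra.lsmul F F (C ⧸ LL ε φ φ') a) (Submodule.Quotient.mk 1) = 0 := by
    rw [h0]; rfl
  have h9' : (Submodule.Quotient.mk (a • 1) : C ⧸ LL ε φ φ') = 0 := h9
  rw [Submodule.Quotient.mk_eq_zero] at h9'
  obtain ⟨h10, h11⟩ := h9'
  have h12 := h11 1
  apply hφ'
  rw [← h12]
  congr 1
  apply Subtype.ext
  simp

end Pool.Agent.TH908.RFCUT
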